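import Mathlib

namespace Pool.Agent.Results.MP_78b302_al.Doubled

/-- Lattice terms in `n` variables. -/
inductive Tm (n : ℕ)
  | v : Fin n → Tm n
  | j : Tm n → Tm n → Tm n
  | m : Tm n → Tm n → Tm n

def Tm.eval {n : ℕ} {L : Type} [Lattice L] (a : Fin n → L) : Tm n → L
  | .v i => a i
  | .j s t => s.eval a ⊔ t.eval a
  | .m s t => s.eval a ⊓ t.eval a

def Tm.ren {n : ℕ} (σ : Equiv.Perm (Fin n)) : Tm n → Tm n
  | .v i => .v (σ i)
  | .j s t => .j (s.ren σ) (t.ren σ)
  | .m s t => .m (s.ren σ) (t.ren σ)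

def Holds (L : Type) [Lattice L] {n : ℕ} (s t : Tm n) : Prop := ∀ a : Fin n → L, s.eval a = t.eval a

/-- `t = t_σ` in the free lattice, that is, in all lattices. -/
def Symm {n : ℕ} (t : Tm n) : Prop := ∀ σ (L : Type) [Lattice L], Holds L t (t.ren σ)

/-- Membership in the variety defined by `E`. -/
def InVar (E : Set (Σ n, Tm n × Tm n)) (L : Type) [Lattice L] : Prop :=
  ∀ e ∈ E, Holds L e.2.1 e.2.2

lemma ev_ren {n : ℕ} {L : Type} [Lattice L] (a : Fin n → L) (σ : Equiv.Perm (Fin n)) (t : Tm n) :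
    (t.ren σ).eval a = t.eval (a ∘ σ) := by
  induction t <;> simp [Tm.ren, Tm.eval, *]

lemma ev_hom {n : ℕ} {L M : Type} [Lattice L] [Lattice M] (f : LatticeHom L M) (a : Fin n → L)
    (t : Tm n) : f (t.eval a) = t.eval (f ∘ a) := by
  induction t <;> simp [Tm.eval, *]

def L := Fin 9
instance : DecidableEq L := inferInstanceAs (DecidableEq (Fin 9))
instance : Fintype L := inferInstanceAs (Fintype (Fin 9))
def tab (T : ℕ) (a b : Fin 9) : Fin 9 := Fin.ofNat 9 (T >>> (4 * (9 * a.1 + b.1)) % 16)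
instance : Max L := ⟨tab 17791507113651668833256868273243685922265428310873096135967558834222971758480115388548359640068624⟩
instance : Min L := ⟨tab 17092329959840798951956422195664323488769660565716992787685547449609933113551238376199820570263552⟩
instance : Lattice L := Lattice.mk' (by decide +kernel) (by decide +kernel) (by decide +kernel)
  (by decide +kernel) (by decide +kernel) (by decide +kernel)

def mem (k : Fin 6) (x : Fin 9) : Bool := (![507, 431, 439, 343, 103, 207] k : ℕ).testBit x.1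
def S (k : Fin 6) : Sublattice L where
  carrier := {x | mem k x}
  supClosed' := fun a ha b hb => (by decide +kernel : ∀ k (a b : L), mem k a → mem k b →
    mem k (a ⊔ b : L)) k a b ha hb
  infClosed' := fun a ha b hb => (by decide +kernel : ∀ k (a b : L), mem k a → mem k b →
    mem k (a ⊓ b : L)) k a b ha hb

def hom (f : Fin 9 → Fin 9) (h : ∀ a b : L, f (a ⊔ b : L) = (f a ⊔ f b : L) ∧ f (a ⊓ b : L) = (f a ⊓ f b : L)) :
    LatticeHom L L := ⟨⟨f, fun a b => (h a b).1⟩, fun a b => (h a b).2⟩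
def q : LatticeHom L L := hom ![0, 1, 5, 3, 4, 5, 6, 7, 8] (by decide +kernel)
def r : LatticeHom L L := hom ![0, 1, 3, 4, 5, 3, 8, 6, 7] (by decide +kernel)

open Tm in
def E : Set (Σ n, Tm n × Tm n) :=
  {⟨3, m (v 0) (j (m (v 0) (v 1)) (m (v 2) (j (v 0) (v 1)))), j (m (v 0) (v 1)) (m (v 0) (v 2))⟩}

lemma inS (k : Fin 6) : InVar E (S k) := by
  rintro _ rfl a
  exact Subtype.ext ((by decide +kernel : ∀ k (x y z : L), mem k x → mem k y → mem k z →
    x ⊓ (x ⊓ y ⊔ z ⊓ (x ⊔ y)) = x ⊓ y ⊔ x ⊓ z) k _ _ _ (a 0).2 (a 1).2 (a 2).2)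

theorem result : ∃ (k : ℕ) (E : Set (Σ n, Tm n × Tm n)), (∀ e ∈ E, e.1 ≤ k) ∧
    ∃ (L : Type) (_ : Lattice L), ¬ InVar E L ∧ ∀ n ≤ k, ∀ s t : Tm n, Symm s → Symm t →
      (∀ (M : Type) [Lattice M], InVar E M → Holds M s t) → Holds L s t := by
  refine ⟨3, E, by rintro _ rfl; rfl, L, inferInstance, fun h => ?_, fun n hn s t hs ht h a => ?_⟩
  · exact absurd (h _ rfl (![2, 3, 4] : Fin 3 → Fin 9)) (by decide +kernel)
  have h1 : ∀ a : Fin n → L, ∀ k, (∀ i, mem k (a i)) → s.eval a = t.eval a := fun a k hk => by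
    have := congrArg (S k).subtype (h _ (inS k) fun i => ⟨a i, hk i⟩)
    rwa [ev_hom, ev_hom] at this
  have h2 : (∃ k, ∀ i, mem k (a i)) ∨ ∃ σ : Equiv.Perm (Fin n), q ∘ a ∘ σ = r ∘ a := by
    revert a
    interval_cases n <;> decide +kernel
  rcases h2 with ⟨k, hk⟩ | ⟨σ, hσ⟩
  · exact h1 a k hk
  have h3 : ∀ t : Tm n, Symm t → q (t.eval a) = r (t.eval a) := fun t ht => by
    rw [ev_hom r, ← hσ, ← ev_hom, ← ev_ren, ← ht σ]
  have h4 := h1 (q ∘ a) 0 fun i => (by decide +kernel : ∀ x, mem 0 (q x)) _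
  rw [← ev_hom, ← ev_hom] at h4
  exact (by decide +kernel : ∀ x y, q x = r x → q y = r y → q x = q y → x = y) _ _
    (h3 s hs) (h3 t ht) h4

end Pool.Agent.Results.MP_78b302_al.Doubled
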